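import Pool.Agent.helper42.NS.Spec

namespace Pool.Agent.helper42.NS

open Polynomial Matrix

theorem PBH_kry {t : ℕ} (H : Matrix (Fin t) (Fin t) ℤ) (S : Set (Fin t → ℤ)) (v : Fin t → ℤ) (hv : v ∈ Kry H S) :
    H.mulVec v ∈ Kry H S := by
  unfold Kry at hv ⊢
  induction hv using Submodule.span_induction with
  | mem x hx =>
    obtain ⟨b, hb, l, rfl⟩ := hx
    apply Submodule.subset_span
    refine ⟨b, hb, l + 1, ?_⟩
    rw [Matrix.mulVec_mulVec, ← pow_succ']
  | zero => rw [Matrix.mulVec_zero]; exact Submodule.zero_mem _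
  | add x y _ _ hx hy => rw [Matrix.mulVec_add]; exact Submodule.add_mem _ hx hy
  | smul c x _ hx => rw [Matrix.mulVec_smul]; exact Submodule.smul_mem _ _ hx

/-- the lattice as a submodule over the polynomials -/
noncomputable def PBH_N {t : ℕ} (H : Matrix (Fin t) (Fin t) ℤ) (S : Set (Fin t → ℤ)) :
    Submodule ℤ[X] (Module.AEval' (Matrix.mulVecLin H)) where
  carrier := {m | (Module.AEval'.of (Matrix.mulVecLin H)).symm m ∈ Kry H S}
  add_mem' := by
    intro a b ha hb
    simp only [Set.mem_ofPred_eq] at ha hb ⊢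
    rw [map_add]
    exact Submodule.add_mem _ ha hb
  zero_mem' := by
    simp only [Set.mem_ofPred_eq]
    rw [map_zero]
    exact Submodule.zero_mem _
  smul_mem' := by
    intro c m hm
    simp only [Set.mem_ofPred_eq] at hm ⊢
    induction c using Polynomial.induction_on' with
    | add p q hp hq => rw [add_smul, map_add]; exact Submodule.add_mem _ hp hq
    | monomial n a =>
      induction n with
      | zero =>
        rw [monomial_zero_left, ← algebraMap_eq, algebraMap_smul, map_smul]
        exact Submodule.smul_mem _ _ hm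
      | succ n ih =>
        obtain ⟨v, hv⟩ := (Module.AEval'.of (Matrix.mulVecLin H)).surjective ((monomial n a : ℤ[X]) • m)
        have h1 : (monomial (n + 1) a : ℤ[X]) = X * monomial n a := by
          rw [X_mul_monomial]
        rw [h1, mul_smul, ← hv, Module.AEval'.X_smul_of, LinearEquiv.symm_apply_apply]
        rw [← hv, LinearEquiv.symm_apply_apply] at ih
        exact PBH_kry H S v ih

theorem PBH : PBH_stmt := by
  intro t H S hH hK
  have hN : PBH_N H S ≠ ⊤ := by
    intro h
    apply hK
    rw [eq_top_iff]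
    intro v _
    have h1 : Module.AEval'.of (Matrix.mulVecLin H) v ∈ PBH_N H S := by rw [h]; trivial
    have h2 : (Module.AEval'.of (Matrix.mulVecLin H)).symm (Module.AEval'.of (Matrix.mulVecLin H) v) ∈ Kry H S := h1
    rwa [LinearEquiv.symm_apply_apply] at h2
  obtain ⟨Q, hQ, hNQ⟩ := (eq_top_or_exists_le_coatom (PBH_N H S)).resolve_left hN
  have hs : IsSimpleModule ℤ[X] (Module.AEval' (Matrix.mulVecLin H) ⧸ Q) := isSimpleModule_iff_isCoatom.2 hQ
  obtain ⟨I, hI, ⟨e⟩⟩ := isSimpleModule_iff_quot_maximal.1 hs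
  let P : Pt := ⟨I, hI⟩
  let f : (Fin t → ℤ) →+ KP P :=
    (e.toLinearMap.toAddMonoidHom.comp Q.mkQ.toAddMonoidHom).comp
      (Module.AEval'.of (Matrix.mulVecLin H)).toLinearMap.toAddMonoidHom
  have hf : ∀ y, f y = e (Q.mkQ (Module.AEval'.of (Matrix.mulVecLin H) y)) := fun y => rfl
  have hfX : ∀ y, f (H.mulVec y) = lamP P * f y := by
    intro y
    have h1 : Module.AEval'.of (Matrix.mulVecLin H) (H.mulVec y) =
        (X : ℤ[X]) • Module.AEval'.of (Matrix.mulVecLin H) y := by
      rw [Module.AEval'.X_smul_of]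
      rfl
    rw [hf, hf, h1, map_smul, map_smul]
    rfl
  have hfs : ∀ y, f y = ∑ j, (y j : KP P) * f (Pi.single j 1) := by
    intro y
    have h1 : y = ∑ j, y j • (Pi.single j (1 : ℤ) : Fin t → ℤ) := by
      funext i
      simp [Finset.sum_apply, Pi.single_apply]
    conv_lhs => rw [h1]
    rw [map_sum]
    apply Finset.sum_congr rfl
    intro j _
    rw [map_zsmul, zsmul_eq_mul]
  refine ⟨P, fun j => f (Pi.single j 1), ?_, ?_, ?_⟩
  · intro hu
    apply hQ.1
    rw [eq_top_iff]
    intro m _
    obtain ⟨v, rfl⟩ := (Module.AEval'.of (Matrix.mulVecLin H)).surjective m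
    have h1 : f v = 0 := by
      rw [hfs]
      apply Finset.sum_eq_zero
      intro j _
      rw [show f (Pi.single j 1) = 0 from congrFun hu j, mul_zero]
    rw [hf] at h1
    have h2 := (LinearEquiv.map_eq_zero_iff e).1 h1
    rwa [Submodule.mkQ_apply, Submodule.Quotient.mk_eq_zero] at h2
  · rw [mem_EigK]
    intro i
    rw [← hfX, hfs]
    apply Finset.sum_congr rfl
    intro j _
    rw [Matrix.mulVec_single_one]
    simp only [Matrix.col_apply, hH i j]
  · intro b hb
    have h1 : f b = 0 := by
      have h2 : Module.AEval'.of (Matrix.mulVecLin H) b ∈ PBH_N H S := by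
        change (Module.AEval'.of (Matrix.mulVecLin H)).symm (Module.AEval'.of (Matrix.mulVecLin H) b) ∈ Kry H S
        rw [LinearEquiv.symm_apply_apply]
        apply Submodule.subset_span
        exact ⟨b, hb, 0, by rw [pow_zero, Matrix.one_mulVec]⟩
      rw [hf, Submodule.mkQ_apply, (Submodule.Quotient.mk_eq_zero Q).2 (hNQ h2), map_zero]
    rw [hfs] at h1
    exact h1

end Pool.Agent.helper42.NS
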